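import Pool.Agent.H60.LQ.Six
import Pool.Agent.H22.LQ.FIN3

/-!
# LQ, row FIN6: the final theorem in dimension six
-/

set_option autoImplicit false

namespace Pool.LQ

open Finset Real
open Pool.Agent.H49.Ent Pool.Agent.H32.Dense Pool.Agent.H24.KTH

open Fin22 in
theorem fin6 (hPUR : PUR6Stmt) (hLPG : LPGStmt) (hLPA : LPAStmt) (hLVO : LVO6Stmt)
    (hHCB : HCBStmt) (hDCS : DCSStmt) : FIN6Stmt := by
  intro q hq
  have hk1 : kp (171 / 101) = 12371 / 60652 := by
    unfold kp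
    norm_num
  have hP := hLPG 5 (171 / 101) 7.25 (kp (171 / 101)) (by norm_num) (by norm_num)
    (by rw [hk1]; norm_num) hPUR
  have hA := hLPA 5 (171 / 101) 7.25 (kp (171 / 101)) (by norm_num) (by norm_num)
    (by rw [hk1]; norm_num) hP (1 / 100) (by norm_num)
  have hmax : max (7.25 : ℝ) ((1 + 1 / 100) * (171 / 101 + ((5 : ℕ) : ℝ) + kp (171 / 101))) =
      7.25 := by
    rw [max_eq_left]
    rw [hk1]
    norm_num
  rw [hmax] at hA
  have hL := hLVO hA
  have hgap := gap_of_aksg hL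
  have hds := hHCB 5 (50 / 31) (50 / 31 + 5) 0 (by norm_num) le_rfl (by norm_num) (by norm_num)
    hgap
  have e1 : (50 / 31 : ℝ) * ((5 : ℕ) : ℝ) / (((5 : ℕ) : ℝ) + 0) = 50 / 31 := by norm_num
  have e2 : (50 / 31 + 5 : ℝ) * ((5 : ℕ) : ℝ) / (((5 : ℕ) : ℝ) + 0) = 50 / 31 + 5 := by norm_num
  rw [e1, e2] at hds
  have hcount := hDCS 5 (50 / 31) (50 / 31 + 5) (by norm_num) (by norm_num) hds
  refine Pool.Agent.H53.Kak.lossless_of_restricted (by norm_num) (by norm_num : (1 : ℝ) ≤ 50 / 31)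
    (Pool.Agent.H53.Dns.restricted_of_count (by norm_num) hcount) ?_
  push_cast
  linarith

end Pool.LQ
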